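import Pool.Agent.K3h56.E2.Stm

/-! # Bricks COUNT and INFW (helper56's project E2) -/

set_option autoImplicit false

open NumberField IsDedekindDomain Filter Topology

noncomputable section

namespace Pool.Agent.K3h50.E2

open Pool.Agent.K3h30.RS Pool.Agent.K3h56.E2

section quad

variable {F K : Type} [Field F] [NumberField F] [Field K] [NumberField K] [Algebra F K]
  {τ : K ≃ₐ[F] K}

lemma isGalois_of_quad (h : Quad F K τ) : IsGalois F K := by
  haveI : Algebra.IsQuadraticExtension F K := ⟨h.deg⟩
  infer_instance

lemma aut_eq (h : Quad F K τ) (σ : K ≃ₐ[F] K) : σ = AlgEquiv.refl ∨ σ = τ := by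
  haveI := isGalois_of_quad h
  haveI : FiniteDimensional F K := FiniteDimensional.of_finrank_pos (by rw [h.deg]; norm_num)
  have hc : Nat.card (K ≃ₐ[F] K) = 2 := by
    have := IsGalois.card_aut_eq_finrank F K
    rw [h.deg] at this
    exact this
  by_contra hcon
  rw [not_or] at hcon
  letI := Fintype.ofFinite (K ≃ₐ[F] K)
  classical
  have h1 : ({AlgEquiv.refl, τ, σ} : Finset (K ≃ₐ[F] K)).card ≤ Fintype.card (K ≃ₐ[F] K) :=
    Finset.card_le_univ _
  rw [← Nat.card_eq_fintype_card, hc, Finset.card_insert_of_notMem, Finset.card_insert_of_notMem,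
    Finset.card_singleton] at h1
  · omega
  · rw [Finset.mem_singleton]
    exact fun h => hcon.2 h.symm
  · rw [Finset.mem_insert, Finset.mem_singleton, not_or]
    exact ⟨fun h' => h.ne h'.symm, fun h => hcon.1 h.symm⟩

lemma over_iff (h : Quad F K τ) (u u' : InfinitePlace K) :
    u'.comap (algebraMap F K) = u.comap (algebraMap F K) ↔
      u' = u ∨ u' = u.comap (τ : K →+* K) := by
  haveI := isGalois_of_quad h
  constructor
  · intro hu
    obtain ⟨σ, hσ⟩ := InfinitePlace.exists_smul_eq_of_comap_eq hu.symm
    rcases aut_eq h σ.symm with h1 | h1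
    · left
      rw [← hσ, InfinitePlace.smul_eq_comap, h1]
      rfl
    · right
      rw [← hσ, InfinitePlace.smul_eq_comap, h1]
  · rintro (rfl | rfl)
    · rfl
    · rw [← InfinitePlace.comap_comp]
      congr 1
      ext x
      exact τ.commutes x

end quad

open Classical in
/-- Brick COUNT. -/
theorem t_COUNT : S_COUNT := by
  intro F K _ _ _ _ _ τ h
  obtain ⟨A, hA⟩ : ∃ A : InfinitePlace F → Prop, A = fun v => ∃ u : InfinitePlace K,
    u.comap (algebraMap F K) = v ∧ u.comap (τ : K →+* K) ≠ u := ⟨_, rfl⟩
  have h1 : ∀ v : InfinitePlace F, (Finset.univ.filter fun u : InfinitePlace K =>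
      u.comap (algebraMap F K) = v).card = 1 + if A v then 1 else 0 := by
    intro v
    obtain ⟨u₀, hu₀⟩ := InfinitePlace.comap_surjective (K := K) v
    by_cases hv : A v
    · rw [if_pos hv]
      have hv' := hv
      rw [hA] at hv'
      obtain ⟨u, hu, hne⟩ := hv'
      have h2 : (Finset.univ.filter fun u' : InfinitePlace K => u'.comap (algebraMap F K) = v) =
          {u, u.comap (τ : K →+* K)} := by
        ext u'
        rw [Finset.mem_filter, Finset.mem_insert, Finset.mem_singleton, ← hu]
        exact ⟨fun h3 => (over_iff h u u').1 h3.2, fun h3 =>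
          ⟨Finset.mem_univ _, (over_iff h u u').2 h3⟩⟩
      rw [h2, Finset.card_insert_of_notMem, Finset.card_singleton]
      rw [Finset.mem_singleton]
      exact fun h3 => hne h3.symm
    · rw [if_neg hv]
      have h2 : (Finset.univ.filter fun u' : InfinitePlace K => u'.comap (algebraMap F K) = v) =
          {u₀} := by
        ext u'
        rw [Finset.mem_filter, Finset.mem_singleton, ← hu₀]
        constructor
        · rintro ⟨-, h3⟩
          rcases (over_iff h u₀ u').1 h3 with h4 | h4
          · exact h4
          · by_contra h5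
            apply hv
            rw [hA]
            exact ⟨u₀, hu₀, fun h6 => h5 (h4.trans h6)⟩
        · rintro rfl
          exact ⟨Finset.mem_univ _, rfl⟩
      rw [h2, Finset.card_singleton]
  have h2 : Fintype.card (InfinitePlace K) = ∑ v : InfinitePlace F,
      (Finset.univ.filter fun u : InfinitePlace K => u.comap (algebraMap F K) = v).card := by
    rw [← Finset.card_univ]
    exact Finset.card_eq_sum_card_fiberwise fun u _ => Finset.mem_univ _
  rw [h2, Finset.sum_congr rfl fun v _ => h1 v, Finset.sum_add_distrib, Finset.sum_const,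
    Finset.card_univ, smul_eq_mul, mul_one, ← Finset.card_filter, add_comm]
  congr 1
  have h3 : Nat.card {v : InfinitePlace F // A v} = (Finset.univ.filter A).card := by
    rw [Nat.card_eq_fintype_card, Fintype.card_subtype]
  rw [← h3, hA]

section inf

variable {F H G K : Type} [Field F] [NumberField F] [Field H] [NumberField H] [Algebra F H]
    [CommGroup G] [Finite G] [MulSemiringAction G H]

lemma fixes_iff (w : InfinitePlace H) (γ : G) :
    Fixes (Sum.inl w : Place H) γ ↔ ∀ x : H, w (γ • x) = w x := by
  constructor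
  · intro h x
    have h1 : w (γ • x) ^ w.mult = w x ^ w.mult := h x
    exact (pow_left_inj₀ (apply_nonneg w _) (apply_nonneg w _) w.mult_ne_zero).1 h1
  · intro h x
    show w (γ • x) ^ w.mult = w x ^ w.mult
    rw [h x]

end inf

/-- Brick INFW. -/
theorem t_INFW : S_INFW := by
  intro F H G K _ _ _ _ _ _ _ _ _ _ _ _ _ τ χ hD w
  haveI := hD.tower
  haveI : IsGalois F H := IsGaloisGroup.isGalois G F H
  haveI : IsGalois K H := IsGalois.tower_top_of_isGalois F K H
  constructor
  · intro hfix hu
    obtain ⟨g₀, hg₀⟩ := hD.ex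
    obtain ⟨w₀, hw₀⟩ : ∃ w₀ : InfinitePlace H, w₀ = w.comap (MulSemiringAction.toRingHom G H g₀) :=
      ⟨_, rfl⟩
    have hw₀x : ∀ x, w₀ x = w (g₀ • x) := by
      intro x
      rw [hw₀, InfinitePlace.comap_apply]
      rfl
    have h2 : ∀ x : K, w (algebraMap K H (τ x)) = w (algebraMap K H x) := fun x => by
      have h3 : (w.comap (algebraMap K H)).comap (τ : K →+* K) x =
        w.comap (algebraMap K H) x := by rw [hu]
      exact h3
    have h1 : w₀.comap (algebraMap K H) = w.comap (algebraMap K H) := by
      apply InfinitePlace.ext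
      intro x
      rw [InfinitePlace.comap_apply, hw₀x, hD.neg g₀ hg₀, h2, InfinitePlace.comap_apply]
    obtain ⟨σ, hσ⟩ := InfinitePlace.exists_smul_eq_of_comap_eq h1
    obtain ⟨γ₁, hγ₁⟩ := (IsGaloisGroup.mulEquivAlgEquiv G F H).surjective
      ((σ.symm : H ≃ₐ[K] H).restrictScalars F)
    have hγ₁x : ∀ x : H, γ₁ • x = σ.symm x := by
      intro x
      have h2 : (IsGaloisGroup.mulEquivAlgEquiv G F H γ₁) x =
        ((σ.symm : H ≃ₐ[K] H).restrictScalars F) x := by rw [hγ₁]
      exact h2
    have hχ : χ γ₁ = 1 := by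
      by_contra hne
      apply hD.quad.ne
      ext x
      apply (algebraMap K H).injective
      have h2 := hD.neg γ₁ hne x
      rw [hγ₁x, AlgEquiv.commutes] at h2
      exact h2.symm
    have h3 : χ (g₀ * γ₁) = 1 := by
      apply hfix
      rw [fixes_iff]
      intro x
      rw [mul_smul, ← hw₀x, hγ₁x, ← hσ]
      rfl
    rw [map_mul, hχ, mul_one] at h3
    exact hg₀ h3
  · intro hu γ hγ
    by_contra hne
    apply hu
    rw [fixes_iff] at hγ
    apply InfinitePlace.ext
    intro x
    rw [InfinitePlace.comap_apply, InfinitePlace.comap_apply, InfinitePlace.comap_apply]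
    show w (algebraMap K H (τ x)) = _
    rw [← hD.neg γ hne, hγ]

end Pool.Agent.K3h50.E2
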